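import Pool.Agent.Helper705_SA.Closure

set_option autoImplicit false

namespace Pool.Agent.Results.MP_92a43c_al.GraphProducts

open Pool.Agent.Helper705_SA

/-- The class of finitely generated groups which are strongly accessible over the class `𝒞` of
finite and virtually infinite cyclic groups and strongly accessible over the class of finite
groups is closed under graph products over finite graphs. -/
theorem result (ι : Type) [Finite ι] (Γ : SimpleGraph ι) (H : ι → Type) [∀ i, Group (H i)]
    (hfg : ∀ i, Group.FG (H i)) (hC : ∀ i, StronglyAccessible CClass (H i))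
    (hF : ∀ i, StronglyAccessible FinClass (H i)) :
    Group.FG (GraphProduct Γ H) ∧ StronglyAccessible CClass (GraphProduct Γ H) ∧
      StronglyAccessible FinClass (GraphProduct Γ H) := by
  refine ⟨?_, ?_, ?_⟩
  · classical
    have := Fintype.ofFinite ι
    choose s hs using fun i => Group.fg_def.mp (hfg i)
    rw [Group.fg_def]
    refine ⟨Finset.univ.biUnion (fun i => (s i).image (GraphProduct.of Γ i)), ?_⟩
    rw [eq_top_iff]
    intro g _
    apply GraphProduct.mem_of_forall
    intro i x
    have h1 : x ∈ Subgroup.closure (s i : Set (H i)) := by rw [hs i]; exact Subgroup.mem_top x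
    have h2 : (Subgroup.closure (s i : Set (H i))).map (GraphProduct.of Γ i) ≤ Subgroup.closure
        (↑(Finset.univ.biUnion (fun i => (s i).image (GraphProduct.of Γ i))) :
          Set (GraphProduct Γ H)) := by
      rw [MonoidHom.map_closure]
      apply Subgroup.closure_mono
      rintro _ ⟨y, hy, rfl⟩
      rw [Finset.mem_coe, Finset.mem_biUnion]
      exact ⟨i, Finset.mem_univ i, Finset.mem_image_of_mem _ hy⟩
    exact h2 ⟨x, h1, rfl⟩
  · exact GraphProduct.stronglyAccessible c_nice (Nat.card ι) ι Γ H rfl hfg
      (fun i K _ hK => prod_c (hC i) (hF i) K hK)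
  · exact GraphProduct.stronglyAccessible fin_nice (Nat.card ι) ι Γ H rfl hfg
      (fun i K _ hK => prod_finite fin_nice K hK (hF i))

end Pool.Agent.Results.MP_92a43c_al.GraphProducts
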